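import Mathlib
import Pool.Agent.H662R2.Orbit

/-!
# A finitely presented orthomodular lattice with unsolvable word problem

Outline.  In an orthomodular lattice put `φ a x = a ∧ (a' ∨ x)` (Sasaki projection).  If `a` and
`b` commute then `φ a (φ b x) = φ b (φ a x)` for all `x`.  We take a deterministic multi-stack
machine for which acceptance is recursively inseparable from halting without acceptance.  For each
stack `s` there are generators `n s`, `m s` and `g s a` (`a` a letter), generators belonging to
different stacks commute, and there is a generator for each state `q`.  A letter `a` on top of the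
stack `s` acts by `τ s a = φ (n s) ∘ φ (m s) ∘ φ (n s)' ∘ φ (g s a)`; these operators commute for
different stacks, on the whole lattice.  Each instruction gives one relation, and it records itself
on a history stack.  If the machine accepts then the element representing the initial configuration
is `0` in the presented lattice.  If it halts without accepting, then the lattice of subspaces of a
finite-dimensional Euclidean space gives a model where this element is a line.
-/

set_option autoImplicit false
set_option linter.unusedSectionVars false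

namespace Pool.Agent.Results.MP_6fdd0d_al.Unsolvable

open Pool.Agent.H662R2.SM Pool.Agent.H662R2.Orbit

/-! ### Orthomodular lattices, terms, presentations -/

/-- Orthomodular lattices. -/
class OML (α : Type) extends Lattice α, BoundedOrder α where
  /-- the orthocomplement -/
  oc : α → α
  oc_oc : ∀ a, oc (oc a) = a
  oc_anti : ∀ a b, a ≤ b → oc b ≤ oc a
  inf_oc : ∀ a, a ⊓ oc a = ⊥
  sup_oc : ∀ a, a ⊔ oc a = ⊤
  orthomodular : ∀ a b, a ≤ b → b = a ⊔ (b ⊓ oc a)

/-- Terms in the variables `x_0, ..., x_{n-1}`. -/
inductive Term (n : ℕ) : Type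
  | var (i : Fin n) : Term n
  | bot : Term n
  | top : Term n
  | inf (s t : Term n) : Term n
  | sup (s t : Term n) : Term n
  | oc (s : Term n) : Term n

/-- The value of a term. -/
def Term.eval {n : ℕ} {α : Type} [OML α] (v : Fin n → α) : Term n → α
  | .var i => v i
  | .bot => ⊥
  | .top => ⊤
  | .inf s t => s.eval v ⊓ t.eval v
  | .sup s t => s.eval v ⊔ t.eval v
  | .oc s => OML.oc (s.eval v)

/-- The assignment `v` satisfies the relations `R`. -/
def Satisfies {n : ℕ} (R : List (Term n × Term n)) {α : Type} [OML α] (v : Fin n → α) : Prop :=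
  ∀ p ∈ R, p.1.eval v = p.2.eval v

/-- Two terms are identified if they have the same value in all orthomodular lattices under all
assignments that satisfy the relations. -/
def presSetoid (n : ℕ) (R : List (Term n × Term n)) : Setoid (Term n) where
  r s t := ∀ (α : Type) [OML α] (v : Fin n → α), Satisfies R v → s.eval v = t.eval v
  iseqv := ⟨fun _ _ _ _ _ => rfl, fun h α _ v hv => (h α v hv).symm,
    fun h₁ h₂ α _ v hv => (h₁ α v hv).trans (h₂ α v hv)⟩

/-- The orthomodular lattice presented by the generators `x_0, ..., x_{n-1}` and the relations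
`R`. -/
def Pres (n : ℕ) (R : List (Term n × Term n)) : Type := Quotient (presSetoid n R)

/-- The element of the presented lattice denoted by a term. -/
def mk {n : ℕ} (R : List (Term n × Term n)) (t : Term n) : Pres n R :=
  Quotient.mk (presSetoid n R) t

theorem mk_eq {n : ℕ} {R : List (Term n × Term n)} {s t : Term n} : mk R s = mk R t ↔
    ∀ (α : Type) [OML α] (v : Fin n → α), Satisfies R v → s.eval v = t.eval v :=
  Quotient.eq

theorem mk_surj {n : ℕ} {R : List (Term n × Term n)} (x : Pres n R) : ∃ t, mk R t = x :=
  Quotient.exists_rep x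

/-- Polish notation of a term. -/
def Term.code {n : ℕ} : Term n → List ℕ
  | .var i => [(i : ℕ) + 5]
  | .bot => [0]
  | .top => [1]
  | .inf s t => 2 :: (s.code ++ t.code)
  | .sup s t => 3 :: (s.code ++ t.code)
  | .oc s => 4 :: s.code

/-- The word problem of the presented orthomodular lattice is solvable: an algorithm decides for
any two terms in the generators (given in Polish notation) whether they denote the same element. -/
def SolvableWordProblem (n : ℕ) (R : List (Term n × Term n)) : Prop :=
  ∃ f : List ℕ × List ℕ → Bool, Computable f ∧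
    ∀ s t : Term n, f (s.code, t.code) = true ↔ mk R s = mk R t

/-! ### Sanity check: different terms have different codes -/

theorem code_prefix {n : ℕ} : ∀ (s t : Term n) (a b : List ℕ), s.code ++ a = t.code ++ b →
    s = t ∧ a = b := by
  intro s
  induction s with
  | var i =>
    intro t a b h
    cases t with
    | var j => simpa [Term.code, Fin.ext_iff] using h
    | _ => simp [Term.code] at h
  | bot =>
    intro t a b h
    cases t with
    | bot => simpa [Term.code] using h
    | _ => simp [Term.code] at h
  | top =>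
    intro t a b h
    cases t with
    | top => simpa [Term.code] using h
    | _ => simp [Term.code] at h
  | inf s₁ s₂ ih₁ ih₂ =>
    intro t a b h
    cases t with
    | inf t₁ t₂ =>
      simp only [Term.code, List.cons_append, List.append_assoc, List.cons.injEq, true_and] at h
      obtain ⟨rfl, h₂⟩ := ih₁ _ _ _ h
      obtain ⟨rfl, h₃⟩ := ih₂ _ _ _ h₂
      exact ⟨rfl, h₃⟩
    | _ => simp [Term.code] at h
  | sup s₁ s₂ ih₁ ih₂ =>
    intro t a b h
    cases t with
    | sup t₁ t₂ =>
      simp only [Term.code, List.cons_append, List.append_assoc, List.cons.injEq, true_and] at h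
      obtain ⟨rfl, h₂⟩ := ih₁ _ _ _ h
      obtain ⟨rfl, h₃⟩ := ih₂ _ _ _ h₂
      exact ⟨rfl, h₃⟩
    | _ => simp [Term.code] at h
  | oc s₁ ih₁ =>
    intro t a b h
    cases t with
    | oc t₁ =>
      simp only [Term.code, List.cons_append, List.cons.injEq, true_and] at h
      obtain ⟨rfl, h₂⟩ := ih₁ _ _ _ h
      exact ⟨rfl, h₂⟩
    | _ => simp [Term.code] at h

theorem code_injective {n : ℕ} : Function.Injective (Term.code (n := n)) := by
  intro s t h
  exact (code_prefix s t [] [] (by simpa using h)).1

/-! ### The presented lattice is an orthomodular lattice with the universal property -/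

section pres

variable {n : ℕ} {R : List (Term n × Term n)}

instance : OML (Pres n R) where
  le x y := Quotient.liftOn₂ x y (fun s t => mk R (.inf s t) = mk R s) (by
    intro s t s' t' hs ht
    have h1 : ∀ (s t s' t' : Term n), (presSetoid n R).r s s' → (presSetoid n R).r t t' →
        mk R (.inf s t) = mk R s → mk R (.inf s' t') = mk R s' := by
      intro s t s' t' hs ht h
      rw [mk_eq] at h ⊢
      intro α _ v hv
      have := h α v hv
      simp only [Term.eval] at this ⊢
      rw [← hs α v hv, ← ht α v hv, this]
    exact propext ⟨h1 _ _ _ _ hs ht, h1 _ _ _ _ ((presSetoid n R).symm hs)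
      ((presSetoid n R).symm ht)⟩)
  le_refl x := by
    induction x using Quotient.inductionOn with
    | h s => exact mk_eq.2 fun α _ v _ => by simp [Term.eval]
  le_trans x y z := by
    induction x using Quotient.inductionOn with
    | h s =>
    induction y using Quotient.inductionOn with
    | h t =>
    induction z using Quotient.inductionOn with
    | h u =>
    intro h1 h2
    refine mk_eq.2 fun α _ v hv => ?_
    have h1' := mk_eq.1 h1 α v hv
    have h2' := mk_eq.1 h2 α v hv
    simp only [Term.eval, inf_eq_left] at h1' h2' ⊢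
    exact h1'.trans h2'
  le_antisymm x y := by
    induction x using Quotient.inductionOn with
    | h s =>
    induction y using Quotient.inductionOn with
    | h t =>
    intro h1 h2
    refine mk_eq.2 fun α _ v hv => ?_
    have h1' := mk_eq.1 h1 α v hv
    have h2' := mk_eq.1 h2 α v hv
    simp only [Term.eval, inf_eq_left] at h1' h2'
    exact le_antisymm h1' h2'
  sup x y := Quotient.liftOn₂ x y (fun s t => mk R (.sup s t)) (by
    intro s t s' t' hs ht
    refine mk_eq.2 fun α _ v hv => ?_
    simp only [Term.eval]
    rw [hs α v hv, ht α v hv])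
  inf x y := Quotient.liftOn₂ x y (fun s t => mk R (.inf s t)) (by
    intro s t s' t' hs ht
    refine mk_eq.2 fun α _ v hv => ?_
    simp only [Term.eval]
    rw [hs α v hv, ht α v hv])
  le_sup_left x y := by
    induction x using Quotient.inductionOn with
    | h s =>
    induction y using Quotient.inductionOn with
    | h t => exact mk_eq.2 fun α _ v _ => by simp [Term.eval]
  le_sup_right x y := by
    induction x using Quotient.inductionOn with
    | h s =>
    induction y using Quotient.inductionOn with
    | h t => exact mk_eq.2 fun α _ v _ => by simp [Term.eval]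
  sup_le x y z := by
    induction x using Quotient.inductionOn with
    | h s =>
    induction y using Quotient.inductionOn with
    | h t =>
    induction z using Quotient.inductionOn with
    | h u =>
    intro h1 h2
    refine mk_eq.2 fun α _ v hv => ?_
    have h1' := mk_eq.1 h1 α v hv
    have h2' := mk_eq.1 h2 α v hv
    simp only [Term.eval, inf_eq_left] at h1' h2' ⊢
    exact sup_le h1' h2'
  inf_le_left x y := by
    induction x using Quotient.inductionOn with
    | h s =>
    induction y using Quotient.inductionOn with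
    | h t => exact mk_eq.2 fun α _ v _ => by simp [Term.eval]
  inf_le_right x y := by
    induction x using Quotient.inductionOn with
    | h s =>
    induction y using Quotient.inductionOn with
    | h t => exact mk_eq.2 fun α _ v _ => by simp [Term.eval]
  le_inf x y z := by
    induction x using Quotient.inductionOn with
    | h s =>
    induction y using Quotient.inductionOn with
    | h t =>
    induction z using Quotient.inductionOn with
    | h u =>
    intro h1 h2
    refine mk_eq.2 fun α _ v hv => ?_
    have h1' := mk_eq.1 h1 α v hv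
    have h2' := mk_eq.1 h2 α v hv
    simp only [Term.eval, inf_eq_left] at h1' h2' ⊢
    exact le_inf h1' h2'
  top := mk R .top
  bot := mk R .bot
  le_top x := by
    induction x using Quotient.inductionOn with
    | h s => exact mk_eq.2 fun α _ v _ => by simp [Term.eval]
  bot_le x := by
    induction x using Quotient.inductionOn with
    | h s => exact mk_eq.2 fun α _ v _ => by simp [Term.eval]
  oc x := Quotient.liftOn x (fun s => mk R (.oc s)) (by
    intro s s' hs
    refine mk_eq.2 fun α _ v hv => ?_
    simp only [Term.eval]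
    rw [hs α v hv])
  oc_oc x := by
    induction x using Quotient.inductionOn with
    | h s => exact mk_eq.2 fun α _ v _ => by simp [Term.eval, OML.oc_oc]
  oc_anti x y := by
    induction x using Quotient.inductionOn with
    | h s =>
    induction y using Quotient.inductionOn with
    | h t =>
    intro h
    refine mk_eq.2 fun α _ v hv => ?_
    have h' := mk_eq.1 h α v hv
    simp only [Term.eval, inf_eq_left] at h' ⊢
    exact OML.oc_anti _ _ h'
  inf_oc x := by
    induction x using Quotient.inductionOn with
    | h s => exact mk_eq.2 fun α _ v _ => by simp [Term.eval, OML.inf_oc]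
  sup_oc x := by
    induction x using Quotient.inductionOn with
    | h s => exact mk_eq.2 fun α _ v _ => by simp [Term.eval, OML.sup_oc]
  orthomodular x y := by
    induction x using Quotient.inductionOn with
    | h s =>
    induction y using Quotient.inductionOn with
    | h t =>
    intro h
    refine mk_eq.2 fun α _ v hv => ?_
    have h' := mk_eq.1 h α v hv
    simp only [Term.eval, inf_eq_left] at h' ⊢
    exact OML.orthomodular _ _ h'

/-- the value of a term at the generators is the element it denotes -/
theorem eval_gen (t : Term n) : t.eval (fun i => mk R (.var i)) = mk R t := by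
  induction t with
  | var i => rfl
  | bot => rfl
  | top => rfl
  | inf s t hs ht => simp only [Term.eval, hs, ht]; rfl
  | sup s t hs ht => simp only [Term.eval, hs, ht]; rfl
  | oc s hs => simp only [Term.eval, hs]; rfl

/-- the generators satisfy the relations -/
theorem gen_satisfies : Satisfies R (fun i => mk R (.var i)) := by
  intro p hp
  rw [eval_gen, eval_gen]
  exact mk_eq.2 fun α _ v hv => hv p hp

/-- the universal property: an assignment satisfying the relations extends to a homomorphism -/
theorem lift_exists {α : Type} [OML α] (v : Fin n → α) (hv : Satisfies R v) :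
    ∃ g : Pres n R → α, (∀ i, g (mk R (.var i)) = v i) ∧ g ⊥ = ⊥ ∧ g ⊤ = ⊤ ∧
      (∀ x y, g (x ⊓ y) = g x ⊓ g y) ∧ (∀ x y, g (x ⊔ y) = g x ⊔ g y) ∧
      (∀ x, g (OML.oc x) = OML.oc (g x)) := by
  refine ⟨fun x => Quotient.liftOn x (fun s => s.eval v) (fun s t h => h α v hv),
    fun i => rfl, rfl, rfl, ?_, ?_, ?_⟩
  · intro x y
    induction x using Quotient.inductionOn with
    | h s =>
    induction y using Quotient.inductionOn with
    | h t => rfl
  · intro x y
    induction x using Quotient.inductionOn with
    | h s =>
    induction y using Quotient.inductionOn with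
    | h t => rfl
  · intro x
    induction x using Quotient.inductionOn with
    | h s => rfl

end pres

/-! ### Commuting elements and Sasaki projections -/

section oml

variable {α : Type} [OML α]

open OML

theorem oc_le_oc {a b : α} (h : a ≤ b) : oc b ≤ oc a := oc_anti a b h

theorem le_oc_of {a b : α} (h : a ≤ oc b) : b ≤ oc a := by
  have := oc_le_oc h
  rwa [oc_oc] at this

theorem oc_sup (a b : α) : oc (a ⊔ b) = oc a ⊓ oc b := by
  apply le_antisymm
  · exact le_inf (oc_le_oc le_sup_left) (oc_le_oc le_sup_right)
  · exact le_oc_of (sup_le (le_oc_of inf_le_left) (le_oc_of inf_le_right))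

theorem oc_inf (a b : α) : oc (a ⊓ b) = oc a ⊔ oc b := by
  have := oc_sup (oc a) (oc b)
  rw [oc_oc, oc_oc] at this
  rw [← this, oc_oc]

theorem oc_bot : oc (⊥ : α) = ⊤ := by
  have := sup_oc (⊥ : α)
  simpa using this

/-- `a` commutes with `b` -/
def Com (a b : α) : Prop := a = (a ⊓ b) ⊔ (a ⊓ oc b)

theorem Com.symm {a b : α} (h : Com a b) : Com b a := by
  unfold Com at h ⊢
  have h1 : b = (a ⊓ b) ⊔ (b ⊓ oc (a ⊓ b)) := orthomodular _ _ inf_le_right
  have h2 : oc a = oc (a ⊓ b) ⊓ oc (a ⊓ oc b) := by
    rw [← oc_sup, ← h]
  have h3 : b ⊓ oc (a ⊓ b) = b ⊓ oc a := by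
    apply le_antisymm
    · refine le_inf inf_le_left ?_
      rw [h2]
      exact le_inf inf_le_right (inf_le_left.trans (le_oc_of inf_le_right))
    · exact inf_le_inf_left _ (oc_le_oc inf_le_left)
  rw [h3] at h1
  rw [inf_comm b a]
  exact h1

theorem Com.oc_right {a b : α} (h : Com a b) : Com a (oc b) := by
  unfold Com at h ⊢
  rw [oc_oc, sup_comm]
  exact h

theorem Com.oc_left {a b : α} (h : Com a b) : Com (oc a) b := h.symm.oc_right.symm

theorem com_of_le {a b : α} (h : a ≤ b) : Com a b := by
  unfold Com
  rw [inf_eq_left.2 h]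
  exact (sup_eq_left.2 inf_le_left).symm

theorem Com.inf_sup {a b : α} (h : Com a b) : a ⊓ (oc a ⊔ b) = a ⊓ b := by
  have h1 : a ⊓ (oc a ⊔ b) = (a ⊓ b) ⊔ ((a ⊓ (oc a ⊔ b)) ⊓ oc (a ⊓ b)) :=
    orthomodular _ _ (inf_le_inf_left _ le_sup_right)
  have h2 : (oc a ⊔ b) ⊓ (oc a ⊔ oc b) = oc a := by
    have h3 : oc a = oc (a ⊓ b) ⊓ oc (a ⊓ oc b) := by
      rw [← oc_sup, ← h]
    rw [oc_inf, oc_inf, oc_oc] at h3
    rw [inf_comm]
    exact h3.symm
  have h3 : (a ⊓ (oc a ⊔ b)) ⊓ oc (a ⊓ b) = ⊥ := by
    rw [oc_inf, inf_assoc, h2, inf_oc]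
  rw [h3, sup_bot_eq] at h1
  exact h1

/-- an instance of the theorem of Foulis and Holland -/
theorem foulis_holland {b x y : α} (hx : Com b x) (hy : Com b y) :
    x ⊔ (b ⊓ y) = (x ⊔ b) ⊓ (x ⊔ y) := by
  have hle : x ⊔ (b ⊓ y) ≤ (x ⊔ b) ⊓ (x ⊔ y) :=
    sup_le (le_inf le_sup_left le_sup_left) (inf_le_inf le_sup_right le_sup_right)
  have h1 := orthomodular _ _ hle
  have h2 : ((x ⊔ b) ⊓ (x ⊔ y)) ⊓ oc (x ⊔ (b ⊓ y)) = ⊥ := by
    have e1 : oc x ⊓ (x ⊔ b) = oc x ⊓ b := by
      have := (hx.symm.oc_left : Com (oc x) b).inf_sup
      rwa [oc_oc] at this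
    have e2 : b ⊓ (oc b ⊔ oc y) = b ⊓ oc y := (hy.oc_right).inf_sup
    rw [oc_sup, oc_inf]
    have e3 : ((x ⊔ b) ⊓ (x ⊔ y)) ⊓ (oc x ⊓ (oc b ⊔ oc y)) =
        (oc x ⊓ (x ⊔ b)) ⊓ ((x ⊔ y) ⊓ (oc b ⊔ oc y)) := by
      ac_rfl
    rw [e3, e1]
    have e4 : (oc x ⊓ b) ⊓ ((x ⊔ y) ⊓ (oc b ⊔ oc y)) =
        (b ⊓ (oc b ⊔ oc y)) ⊓ (oc x ⊓ (x ⊔ y)) := by
      ac_rfl
    rw [e4, e2]
    have e5 : (b ⊓ oc y) ⊓ (oc x ⊓ (x ⊔ y)) = b ⊓ ((x ⊔ y) ⊓ (oc x ⊓ oc y)) := by
      ac_rfl
    rw [e5, ← oc_sup, inf_oc, inf_bot_eq]
  rw [h2, sup_bot_eq] at h1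
  exact h1.symm

/-- Sasaki projection -/
def phi (a x : α) : α := a ⊓ (oc a ⊔ x)

theorem phi_phi {a b : α} (h : Com a b) (x : α) :
    phi a (phi b x) = (a ⊓ b) ⊓ (oc a ⊔ (oc b ⊔ x)) := by
  unfold phi
  have h1 : Com b (oc a) := h.symm.oc_right
  have h2 : Com b (oc b ⊔ x) := by
    have : Com (oc b) (oc b ⊔ x) := com_of_le le_sup_left
    have := this.oc_left
    rwa [oc_oc] at this
  rw [foulis_holland h1 h2, ← inf_assoc, h.inf_sup]

theorem phi_comm {a b : α} (h : Com a b) (x : α) : phi a (phi b x) = phi b (phi a x) := by
  rw [phi_phi h, phi_phi h.symm, inf_comm b a]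
  congr 1
  rw [sup_left_comm]

theorem phi_bot (a : α) : phi a ⊥ = ⊥ := by
  unfold phi
  rw [sup_bot_eq, inf_oc]

/-- the operator of a letter -/
def tau (n m g : α) (x : α) : α := phi n (phi m (phi (oc n) (phi g x)))

theorem tau_bot (n m g : α) : tau n m g ⊥ = ⊥ := by
  unfold tau
  rw [phi_bot, phi_bot, phi_bot, phi_bot]

/-- Sasaki projection as an element of the monoid of maps -/
def phiE (a : α) : Function.End α := phi a

theorem phiE_comm {a b : α} (h : Com a b) : Commute (phiE a) (phiE b) := by
  funext x
  exact phi_comm h x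

/-- the operator of a letter, as an element of the monoid of maps -/
def tauE (n m g : α) : Function.End α := phiE n * phiE m * phiE (oc n) * phiE g

theorem tauE_apply (n m g x : α) : tauE n m g x = tau n m g x := rfl

theorem tauE_comm {n m g n' m' g' : α} (h1 : Com n n') (h2 : Com n m') (h3 : Com n g')
    (h4 : Com m n') (h5 : Com m m') (h6 : Com m g') (h7 : Com g n') (h8 : Com g m')
    (h9 : Com g g') : Commute (tauE n m g) (tauE n' m' g') := by
  have k : ∀ x : Function.End α, Commute x (phiE n') → Commute x (phiE m') →
      Commute x (phiE (oc n')) → Commute x (phiE g') → Commute x (tauE n' m' g') :=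
    fun x a b c d => ((a.mul_right b).mul_right c).mul_right d
  refine ((Commute.mul_left (Commute.mul_left ?_ ?_) ?_).mul_left ?_)
  · exact k _ (phiE_comm h1) (phiE_comm h2) (phiE_comm h1.oc_right) (phiE_comm h3)
  · exact k _ (phiE_comm h4) (phiE_comm h5) (phiE_comm h4.oc_right) (phiE_comm h6)
  · exact k _ (phiE_comm h1.oc_left) (phiE_comm h2.oc_left) (phiE_comm h1.oc_left.oc_right)
      (phiE_comm h3.oc_left)
  · exact k _ (phiE_comm h7) (phiE_comm h8) (phiE_comm h7.oc_right) (phiE_comm h9)

end oml

/-! ### The presentation of a machine -/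

section machine

variable {K Γ Q : Type} {n : ℕ}

/-- generators: for each stack (the stack `none` is the history) the symbols `none`, `some none`
and the letters; the states -/
abbrev Gen (K Γ Q : Type) : Type := (Option K × Option (Option (Let Γ Q))) ⊕ Q

/-- the term of a Sasaki projection -/
def phiT (a t : Term n) : Term n := .inf a (.sup (.oc a) t)

/-- the term of the operator of a letter -/
def tauT (e : Gen K Γ Q → Fin n) (x : Option K × Let Γ Q) (t : Term n) : Term n :=
  phiT (.var (e (.inl (x.1, none)))) (phiT (.var (e (.inl (x.1, some none))))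
    (phiT (.oc (.var (e (.inl (x.1, none))))) (phiT (.var (e (.inl (x.1, some (some x.2))))) t)))

/-- successive application of letters -/
def chain (e : Gen K Γ Q → Fin n) (l : List (Option K × Let Γ Q)) (t : Term n) : Term n :=
  l.foldr (tauT e) t

/-- the relations -/
def IsRel (M : Mach K Γ Q) (acc : Q → Γ → Prop) (e : Gen K Γ Q → Fin n)
    (p : Term n × Term n) : Prop :=
  (∃ (s t : Option K) (a b : Option (Option (Let Γ Q))), s ≠ t ∧
    p = (.var (e (.inl (s, a))),
      .sup (.inf (.var (e (.inl (s, a)))) (.var (e (.inl (t, b)))))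
        (.inf (.var (e (.inl (s, a)))) (.oc (.var (e (.inl (t, b)))))))) ∨
  (∃ q o q' w, M.δ q o = some (q', w) ∧
    p = (tauT e (some (M.κ q), .inl o) (.var (e (.inr q))),
      chain e (w.reverse.map fun x => (some (M.κ q), .inl x))
        (tauT e (none, .inr (q, o)) (.var (e (.inr q')))))) ∨
  (∃ q o, acc q o ∧ p = (tauT e (some (M.κ q), .inl o) (.var (e (.inr q))), .bot))

theorem finite_rel [Finite K] [Finite Γ] [Finite Q] (M : Mach K Γ Q) (acc : Q → Γ → Prop)
    (e : Gen K Γ Q → Fin n) : {p | IsRel M acc e p}.Finite := by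
  classical
  refine Set.Finite.subset (Set.Finite.union (Set.finite_range
    (fun x : (Option K × Option K) × (Option (Option (Let Γ Q)) × Option (Option (Let Γ Q))) =>
      ((.var (e (.inl (x.1.1, x.2.1))),
      .sup (.inf (.var (e (.inl (x.1.1, x.2.1)))) (.var (e (.inl (x.1.2, x.2.2)))))
        (.inf (.var (e (.inl (x.1.1, x.2.1)))) (.oc (.var (e (.inl (x.1.2, x.2.2))))))) :
        Term n × Term n)))
    (Set.Finite.union (Set.finite_range (fun x : Q × Γ => (match M.δ x.1 x.2 with
      | some (q', w) => (tauT e (some (M.κ x.1), .inl x.2) (.var (e (.inr x.1))),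
          chain e (w.reverse.map fun y => (some (M.κ x.1), .inl y))
            (tauT e (none, .inr (x.1, x.2)) (.var (e (.inr q')))))
      | none => (.bot, .bot) : Term n × Term n)))
      (Set.finite_range (fun x : Q × Γ =>
        ((tauT e (some (M.κ x.1), .inl x.2) (.var (e (.inr x.1))), .bot) :
          Term n × Term n))))) ?_
  rintro p (⟨s, t, a, b, _, rfl⟩ | ⟨q, o, q', w, h, rfl⟩ | ⟨q, o, _, rfl⟩)
  · exact Or.inl ⟨((s, t), (a, b)), rfl⟩
  · exact Or.inr (Or.inl ⟨(q, o), by simp [h]⟩)
  · exact Or.inr (Or.inr ⟨(q, o), rfl⟩)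

/-- the term for the configuration `(q, S)` -/
def cfgTerm (ks : List K) (e : Gen K Γ Q → Fin n) (q : Q) (S : K → List Γ) : Term n :=
  chain e (word ks S) (.var (e (.inr q)))

/-- the operator of a letter under an assignment -/
def opE {α : Type} [OML α] (e : Gen K Γ Q → Fin n) (v : Fin n → α) (x : Option K × Let Γ Q) :
    Function.End α :=
  tauE (v (e (.inl (x.1, none)))) (v (e (.inl (x.1, some none))))
    (v (e (.inl (x.1, some (some x.2)))))

theorem eval_tauT {α : Type} [OML α] (e : Gen K Γ Q → Fin n) (v : Fin n → α)
    (x : Option K × Let Γ Q) (t : Term n) : (tauT e x t).eval v = opE e v x (t.eval v) := rfl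

theorem eval_chain {α : Type} [OML α] (e : Gen K Γ Q → Fin n) (v : Fin n → α)
    (l : List (Option K × Let Γ Q)) (t : Term n) :
    (chain e l t).eval v = (l.map (opE e v)).prod (t.eval v) := by
  induction l with
  | nil => rfl
  | cons x l ih =>
    have : chain e (x :: l) t = tauT e x (chain e l t) := rfl
    rw [this, eval_tauT, ih]
    rfl

theorem opE_bot {α : Type} [OML α] (e : Gen K Γ Q → Fin n) (v : Fin n → α)
    (x : Option K × Let Γ Q) : opE e v x ⊥ = ⊥ := tau_bot _ _ _

theorem prod_bot {α : Type} [OML α] (e : Gen K Γ Q → Fin n) (v : Fin n → α)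
    (l : List (Option K × Let Γ Q)) : (l.map (opE e v)).prod ⊥ = ⊥ := by
  induction l with
  | nil => rfl
  | cons x l ih =>
    rw [List.map_cons, List.prod_cons]
    show opE e v x ((l.map (opE e v)).prod ⊥) = ⊥
    rw [ih, opE_bot]

theorem accept [DecidableEq K] {α : Type} [OML α] (M : Mach K Γ Q) (acc : Q → Γ → Prop)
    (e : Gen K Γ Q → Fin n) (v : Fin n → α)
    (hp : ∀ p, IsRel M acc e p → p.1.eval v = p.2.eval v) (ks : List K) (hks : ks.Nodup)
    (hall : ∀ k, k ∈ ks) (c c' : Q × (K → List Γ)) (hr : M.Reaches c c') (o : Γ) (z : List Γ)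
    (h1 : c'.2 (M.κ c'.1) = o :: z) (h2 : acc c'.1 o) :
    (cfgTerm ks e c.1 c.2).eval v = ⊥ := by
  have hgen : ∀ (s t : Option K) (a b : Option (Option (Let Γ Q))), s ≠ t →
      Com (v (e (.inl (s, a)))) (v (e (.inl (t, b)))) := by
    intro s t a b hst
    exact hp _ (Or.inl ⟨s, t, a, b, hst, rfl⟩)
  have hcomm : ∀ x y : Option K × Let Γ Q, x.1 ≠ y.1 → Commute (opE e v x) (opE e v y) := by
    intro x y hxy
    exact tauE_comm (hgen _ _ _ _ hxy) (hgen _ _ _ _ hxy) (hgen _ _ _ _ hxy) (hgen _ _ _ _ hxy)
      (hgen _ _ _ _ hxy) (hgen _ _ _ _ hxy) (hgen _ _ _ _ hxy) (hgen _ _ _ _ hxy)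
      (hgen _ _ _ _ hxy)
  set D : K → Γ → Function.End α := fun s a => opE e v (some s, .inl a) with hD
  have hDc : ∀ s t a b, s ≠ t → Commute (D s a) (D t b) := fun s t a b h =>
    hcomm _ _ (by simpa using h)
  have ev : ∀ q S, (cfgTerm ks e q S).eval v =
      (ks.flatMap fun s => (S s).reverse.map (D s)).prod (v (e (.inr q))) := by
    intro q S
    rw [cfgTerm, eval_chain]
    congr 2
    simp only [word, List.map_flatMap, List.map_map]
    rfl
  have pb : ∀ S : K → List Γ, (ks.flatMap fun s => (S s).reverse.map (D s)).prod ⊥ = ⊥ := by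
    intro S
    have := prod_bot e v (word ks S)
    simp only [word, List.map_flatMap, List.map_map] at this
    exact this
  have base : ∀ q S o z, S (M.κ q) = o :: z → acc q o → (cfgTerm ks e q S).eval v = ⊥ := by
    intro q S o z h1 h2
    obtain ⟨R, hR, hR'⟩ := split_word D hDc ks hks S (M.κ q) (hall _) o z h1
    rw [ev, hR]
    have h := hp _ (Or.inr (Or.inr ⟨q, o, h2, rfl⟩))
    rw [eval_tauT] at h
    have h3 : R ⊥ = ⊥ := by
      have := pb (Function.update S (M.κ q) ([] ++ z))
      rw [hR'] at this
      simpa using this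
    show R (D (M.κ q) o (v (e (.inr q)))) = ⊥
    rw [show D (M.κ q) o (v (e (.inr q))) = ⊥ from h, h3]
  have stp : ∀ q S q' S', M.step (q, S) = some (q', S') →
      (cfgTerm ks e q' S').eval v = ⊥ → (cfgTerm ks e q S).eval v = ⊥ := by
    intro q S q' S' hs h0
    unfold Mach.step at hs
    rcases hh : S (M.κ q) with _ | ⟨o, z⟩
    · simp [hh] at hs
    · simp only [hh, Option.map_eq_some_iff] at hs
      obtain ⟨⟨q₁, w⟩, hδ, he⟩ := hs
      simp only [Prod.mk.injEq] at he
      obtain ⟨rfl, rfl⟩ := he
      obtain ⟨R, hR, hR'⟩ := split_word D hDc ks hks S (M.κ q) (hall _) o z hh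
      rw [ev, hR'] at h0
      rw [ev, hR]
      have h := hp _ (Or.inr (Or.inl ⟨q, o, q₁, w, hδ, rfl⟩))
      rw [eval_tauT, eval_chain, eval_tauT, List.map_map] at h
      have e1 : D (M.κ q) o (v (e (.inr q))) =
          ((w.reverse.map (D (M.κ q))).prod) (opE e v (none, .inr (q, o)) (v (e (.inr q₁)))) := h
      show R (D (M.κ q) o (v (e (.inr q)))) = ⊥
      rw [e1]
      have hRc : ∀ x ∈ (ks.flatMap fun s => (Function.update S (M.κ q) (w ++ z) s).reverse.map
          (D s)), Commute (opE e v (none, .inr (q, o))) x := by
        intro x hx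
        simp only [List.mem_flatMap, List.mem_map, List.mem_reverse] at hx
        obtain ⟨s, hs, b, _, rfl⟩ := hx
        exact hcomm _ _ (by simp)
      have hc := Commute.list_prod_right _ _ hRc
      rw [hR'] at hc
      have h3 : (R * (w.reverse.map (D (M.κ q))).prod * opE e v (none, .inr (q, o)))
          (v (e (.inr q₁))) = ⊥ := by
        rw [← hc.eq]
        show opE e v (none, .inr (q, o)) ((R * (w.reverse.map (D (M.κ q))).prod)
          (v (e (.inr q₁)))) = ⊥
        rw [h0, opE_bot]
      exact h3
  obtain ⟨q, S⟩ := c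
  obtain ⟨q', S'⟩ := c'
  refine Relation.ReflTransGen.head_induction_on (motive := fun c _ =>
    (cfgTerm ks e c.1 c.2).eval v = ⊥) hr (base _ _ _ _ h1 h2) ?_
  intro a b hab _ ih
  exact stp a.1 a.2 b.1 b.2 hab ih

/-! ### The model: subspaces of a Euclidean space -/

/-- the subspaces of a finite-dimensional Euclidean space form an orthomodular lattice -/
noncomputable instance subOML (E : Type) [NormedAddCommGroup E] [InnerProductSpace ℝ E]
    [FiniteDimensional ℝ E] : OML (Submodule ℝ E) :=
  { (inferInstance : Lattice (Submodule ℝ E)), (inferInstance : BoundedOrder (Submodule ℝ E)) with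
    oc := fun W => Wᗮ
    oc_oc := fun W => Submodule.orthogonal_orthogonal W
    oc_anti := fun _ _ h => Submodule.orthogonal_le h
    inf_oc := fun W => Submodule.inf_orthogonal_eq_bot W
    sup_oc := fun _ => Submodule.sup_orthogonal_of_hasOrthogonalProjection
    orthomodular := fun a b h => by
      have := Submodule.sup_orthogonal_inf_of_hasOrthogonalProjection h
      rw [inf_comm]
      exact this.symm }

theorem phi_span {E : Type} [NormedAddCommGroup E] [InnerProductSpace ℝ E]
    [FiniteDimensional ℝ E] (W : Submodule ℝ E) (p p' : E) (hp : p ∈ W) (hp' : p' ∈ Wᗮ) :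
    phi W (Submodule.span ℝ {p + p'}) = Submodule.span ℝ {p} := by
  show W ⊓ (Wᗮ ⊔ Submodule.span ℝ {p + p'}) = Submodule.span ℝ {p}
  apply le_antisymm
  · rintro x ⟨hx, hx'⟩
    obtain ⟨y, hy, z, hz, rfl⟩ := Submodule.mem_sup.1 hx'
    obtain ⟨c, rfl⟩ := Submodule.mem_span_singleton.1 hz
    have h1 : y + c • (p + p') - c • p ∈ W := W.sub_mem hx (W.smul_mem c hp)
    have h2 : y + c • (p + p') - c • p ∈ Wᗮ := by
      have : y + c • (p + p') - c • p = y + c • p' := by
        rw [smul_add]; abel
      rw [this]
      exact Wᗮ.add_mem hy (Wᗮ.smul_mem c hp')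
    have h3 : y + c • (p + p') - c • p ∈ W ⊓ Wᗮ := ⟨h1, h2⟩
    rw [Submodule.inf_orthogonal_eq_bot, Submodule.mem_bot, sub_eq_zero] at h3
    rw [h3]
    exact Submodule.smul_mem _ _ (Submodule.mem_span_singleton_self p)
  · rw [Submodule.span_singleton_le_iff_mem]
    refine ⟨hp, Submodule.mem_sup.2 ⟨-p', Wᗮ.neg_mem hp', p + p',
      Submodule.mem_span_singleton_self _, by abel⟩⟩

section model

open scoped InnerProductSpace

/-- stack contents of bounded length -/
abbrev B (Γ Q : Type) (N : ℕ) : Type := {l : List (Let Γ Q) // l.length ≤ N}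

/-- stack contents with an additional bit -/
abbrev X (Γ Q : Type) (N : ℕ) : Type := B Γ Q N × Bool

/-- the index set -/
abbrev I (K Γ Q : Type) (N : ℕ) : Type := Option K → X Γ Q N

theorem finite_I [Finite K] [Finite Γ] [Finite Q] (N : ℕ) : Finite (I K Γ Q N) := by
  have f1 : Finite (B Γ Q N) := (List.finite_length_le (Let Γ Q) N).to_subtype
  infer_instance

variable [DecidableEq K] (N : ℕ) [Fintype (I K Γ Q N)]

/-- averaging over the orbits of a partial involution `μ` of the coordinate `s` -/
noncomputable def P (s : Option K) (μ : X Γ Q N → Option (X Γ Q N)) :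
    EuclideanSpace ℝ (I K Γ Q N) →ₗ[ℝ] EuclideanSpace ℝ (I K Γ Q N) where
  toFun f := WithLp.toLp 2 fun i => match μ (i s) with
    | some y => (f i + f (Function.update i s y)) / 2
    | none => 0
  map_add' f g := by
    ext i
    simp only [PiLp.add_apply]
    cases μ (i s) with
    | none => simp
    | some y => simp only; ring
  map_smul' c f := by
    ext i
    simp only [PiLp.smul_apply, smul_eq_mul, RingHom.id_apply]
    cases μ (i s) with
    | none => simp
    | some y => simp only; ring

theorem P_apply (s : Option K) (μ : X Γ Q N → Option (X Γ Q N))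
    (f : EuclideanSpace ℝ (I K Γ Q N)) (i : I K Γ Q N) :
    P N s μ f i = match μ (i s) with
    | some y => (f i + f (Function.update i s y)) / 2
    | none => 0 := rfl

/-- partial involutions -/
def Inv (μ : X Γ Q N → Option (X Γ Q N)) : Prop := ∀ x y, μ x = some y → μ y = some x

theorem P_idem {s : Option K} {μ : X Γ Q N → Option (X Γ Q N)} (h : Inv N μ)
    (f : EuclideanSpace ℝ (I K Γ Q N)) : P N s μ (P N s μ f) = P N s μ f := by
  ext i
  simp only [P_apply]
  rcases hi : μ (i s) with _ | y
  · rfl
  · simp only [Function.update_self, h _ _ hi, Function.update_idem, Function.update_eq_self]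
    ring

theorem P_symm {s : Option K} {μ : X Γ Q N → Option (X Γ Q N)} (h : Inv N μ)
    (f g : EuclideanSpace ℝ (I K Γ Q N)) : ⟪P N s μ f, g⟫_ℝ = ⟪f, P N s μ g⟫_ℝ := by
  let σ : I K Γ Q N → I K Γ Q N := fun i => match μ (i s) with
    | some y => Function.update i s y
    | none => i
  have hσ : Function.Involutive σ := by
    intro i
    simp only [σ]
    rcases hi : μ (i s) with _ | y
    · simp [hi]
    · simp [h _ _ hi]
  let c : I K Γ Q N → ℝ := fun i => if (μ (i s)).isSome then 1 else 0
  have hc : ∀ i, c (σ i) = c i := by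
    intro i
    simp only [c, σ]
    rcases hi : μ (i s) with _ | y
    · simp [hi]
    · simp [h _ _ hi]
  have e1 : ∀ (f : EuclideanSpace ℝ (I K Γ Q N)) i, P N s μ f i = c i * ((f i + f (σ i)) / 2) := by
    intro f i
    rw [P_apply]
    simp only [c, σ]
    rcases hi : μ (i s) with _ | y
    · simp
    · simp
  have e2 : ∀ x y : EuclideanSpace ℝ (I K Γ Q N), ⟪x, y⟫_ℝ = ∑ i, x i * y i := by
    intro x y
    simp [PiLp.inner_apply, mul_comm]
  rw [e2, e2]
  simp only [e1]
  have e3 : ∑ i, c i * f (σ i) * g i = ∑ i, c i * f i * g (σ i) := by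
    rw [← Equiv.sum_comp hσ.toPerm (fun i => c i * f i * g (σ i))]
    apply Finset.sum_congr rfl
    intro i _
    simp only [Function.Involutive.coe_toPerm]
    rw [hc, hσ i]
  have e4 : ∀ i, c i * ((f i + f (σ i)) / 2) * g i =
      (c i * f i * g i) / 2 + (c i * f (σ i) * g i) / 2 := by
    intro i; ring
  have e5 : ∀ i, f i * (c i * ((g i + g (σ i)) / 2)) =
      (c i * f i * g i) / 2 + (c i * f i * g (σ i)) / 2 := by
    intro i; ring
  simp only [e4, e5, Finset.sum_add_distrib]
  rw [← Finset.sum_div, ← Finset.sum_div, ← Finset.sum_div, e3]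

theorem P_comm {s t : Option K} (hst : s ≠ t) (μ ν : X Γ Q N → Option (X Γ Q N))
    (f : EuclideanSpace ℝ (I K Γ Q N)) : P N s μ (P N t ν f) = P N t ν (P N s μ f) := by
  ext i
  simp only [P_apply]
  rcases hi : μ (i s) with _ | y <;> rcases hj : ν (i t) with _ | z <;>
    simp only [Function.update_of_ne hst, Function.update_of_ne hst.symm, hi, hj]
  · norm_num
  · norm_num
  · rw [Function.update_comm hst]
    ring

/-- the subspace of the vectors fixed by `P` -/
noncomputable def S (s : Option K) (μ : X Γ Q N → Option (X Γ Q N)) :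
    Submodule ℝ (EuclideanSpace ℝ (I K Γ Q N)) :=
  LinearMap.eqLocus (P N s μ) LinearMap.id

theorem mem_S {s : Option K} {μ : X Γ Q N → Option (X Γ Q N)}
    {f : EuclideanSpace ℝ (I K Γ Q N)} : f ∈ S N s μ ↔ P N s μ f = f := Iff.rfl

theorem P_mem {s : Option K} {μ : X Γ Q N → Option (X Γ Q N)} (h : Inv N μ)
    (f : EuclideanSpace ℝ (I K Γ Q N)) : P N s μ f ∈ S N s μ := P_idem N h f

theorem sub_P_mem {s : Option K} {μ : X Γ Q N → Option (X Γ Q N)} (h : Inv N μ)
    (f : EuclideanSpace ℝ (I K Γ Q N)) : f - P N s μ f ∈ (S N s μ)ᗮ := by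
  rw [Submodule.mem_orthogonal]
  intro g hg
  rw [mem_S] at hg
  rw [← hg, P_symm N h, map_sub, P_idem N h, sub_self, inner_zero_right]

theorem phi_S {s : Option K} {μ : X Γ Q N → Option (X Γ Q N)} (h : Inv N μ)
    (f : EuclideanSpace ℝ (I K Γ Q N)) :
    phi (S N s μ) (Submodule.span ℝ {f}) = Submodule.span ℝ {P N s μ f} := by
  have := phi_span (S N s μ) (P N s μ f) (f - P N s μ f) (P_mem N h f) (sub_P_mem N h f)
  rwa [add_sub_cancel] at this

theorem phi_oc_S {s : Option K} {μ : X Γ Q N → Option (X Γ Q N)} (h : Inv N μ)
    (f : EuclideanSpace ℝ (I K Γ Q N)) :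
    phi (OML.oc (S N s μ)) (Submodule.span ℝ {f}) = Submodule.span ℝ {f - P N s μ f} := by
  have := phi_span (S N s μ)ᗮ (f - P N s μ f) (P N s μ f) (sub_P_mem N h f)
    (by rw [Submodule.orthogonal_orthogonal]; exact P_mem N h f)
  rwa [sub_add_cancel] at this

theorem com_S {s t : Option K} (hst : s ≠ t) {μ ν : X Γ Q N → Option (X Γ Q N)}
    (hν : Inv N ν) : Com (S N s μ) (S N t ν) := by
  apply le_antisymm
  · intro f hf
    refine Submodule.mem_sup.2 ⟨P N t ν f, ⟨?_, P_mem N hν f⟩, f - P N t ν f,
      ⟨?_, sub_P_mem N hν f⟩, by abel⟩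
    · show P N s μ (P N t ν f) = P N t ν f
      rw [P_comm N hst, (mem_S N).1 hf]
    · show P N s μ (f - P N t ν f) = f - P N t ν f
      rw [map_sub, P_comm N hst, (mem_S N).1 hf]
  · exact sup_le inf_le_left inf_le_left

/-- functions of stack contents as vectors -/
noncomputable def emb (F : (Option K → List (Let Γ Q)) → ℝ) : EuclideanSpace ℝ (I K Γ Q N) :=
  open scoped Classical in
  WithLp.toLp 2 fun i => if ∀ s, (i s).2 = false then F (fun s => (i s).1.1) else 0

open scoped Classical in
theorem emb_apply (F : (Option K → List (Let Γ Q)) → ℝ) (i : I K Γ Q N) :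
    emb N F i = if ∀ s, (i s).2 = false then F (fun s => (i s).1.1) else 0 := rfl

/-- partial involution: identity where the bit is `false` -/
def muN (x : X Γ Q N) : Option (X Γ Q N) := if x.2 = true then none else some x

/-- involution: change the bit -/
def muM (x : X Γ Q N) : Option (X Γ Q N) := some (x.1, !x.2)

/-- partial involution of the letter `a` -/
noncomputable def muL (a : Let Γ Q) (x : X Γ Q N) : Option (X Γ Q N) :=
  open scoped Classical in
  match x with
  | (⟨l, _⟩, true) => if h' : (a :: l).length ≤ N then some (⟨a :: l, h'⟩, false) else none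
  | (⟨[], _⟩, false) => none
  | (⟨a' :: l, h⟩, false) => if a' = a then some (⟨l, (Nat.le_succ _).trans h⟩, true) else none

theorem inv_muN : Inv N (muN (Γ := Γ) (Q := Q) N) := by
  intro x y h
  unfold muN at h ⊢
  split_ifs at h with h1
  simp only [Option.some.injEq] at h
  subst h
  simp [h1]

theorem inv_muM : Inv N (muM (Γ := Γ) (Q := Q) N) := by
  intro x y h
  simp only [muM, Option.some.injEq] at h
  subst h
  simp [muM]

theorem inv_muL (a : Let Γ Q) : Inv N (muL (Γ := Γ) (Q := Q) N a) := by
  rintro ⟨⟨l, hl⟩, b⟩ y h
  cases b with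
  | true =>
    simp only [muL] at h
    split_ifs at h with h1
    simp only [Option.some.injEq] at h
    subst h
    simp [muL]
  | false =>
    cases l with
    | nil => simp [muL] at h
    | cons a' l =>
      simp only [muL] at h
      split_ifs at h with h1
      simp only [Option.some.injEq] at h
      subst h
      subst h1
      simp only [muL]
      rw [dif_pos hl]

theorem tau_emb (s : Option K) (a : Let Γ Q) (F : (Option K → List (Let Γ Q)) → ℝ)
    (hF : ∀ U, (∃ s, N < (U s).length) → F U = 0) :
    tau (S N s (muN N)) (S N s (muM N)) (S N s (muL N a)) (Submodule.span ℝ {emb N F}) =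
      Submodule.span ℝ {emb N fun U => F (push U (s, a))} := by
  unfold tau
  rw [phi_S N (inv_muL N a), phi_oc_S N (inv_muN N), phi_S N (inv_muM N), phi_S N (inv_muN N)]
  have key : P N s (muN N) (P N s (muM N) (P N s (muL N a) (emb N F) -
      P N s (muN N) (P N s (muL N a) (emb N F)))) =
      (1 / 4 : ℝ) • emb N fun U => F (push U (s, a)) := by
    ext i
    simp only [PiLp.smul_apply, smul_eq_mul]
    set w := P N s (muL N a) (emb N F) with hw
    have hN : ∀ (g : EuclideanSpace ℝ (I K Γ Q N)) (i : I K Γ Q N), P N s (muN N) g i =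
        if (i s).2 = true then 0 else g i := by
      intro g i
      rw [P_apply]
      unfold muN
      split_ifs with h
      · rfl
      · simp only [Function.update_eq_self]
        ring
    rw [hN]
    split_ifs with h1
    · rw [emb_apply, if_neg, mul_zero]
      intro h
      rw [h s] at h1
      exact absurd h1 (by simp)
    · have h1' : (i s).2 = false := by simpa using h1
      rw [P_apply]
      simp only [muM, PiLp.sub_apply, hN, h1', Function.update_self, Bool.not_false,
        Bool.false_eq_true, if_false, if_true, sub_self, sub_zero, zero_add]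
      rw [hw, P_apply]
      simp only [Function.update_self, Function.update_idem]
      have e0 : emb N F (Function.update i s ((i s).1, true)) = 0 := by
        rw [emb_apply, if_neg]
        intro h
        have := h s
        simp at this
      by_cases hlen : (a :: (i s).1.1).length ≤ N
      · have hm : muL N a ((i s).1, true) = some (⟨a :: (i s).1.1, hlen⟩, false) := by
          unfold muL
          simp only
          rw [dif_pos hlen]
        rw [hm]
        simp only [e0, zero_add]
        rw [emb_apply, emb_apply]
        by_cases hall : ∀ t, (i t).2 = false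
        · have hall' : ∀ t, (Function.update i s ((⟨a :: (i s).1.1, hlen⟩ : B Γ Q N), false) t).2
              = false := by
            intro t
            by_cases ht : t = s
            · subst ht; simp
            · simp [ht, hall t]
          rw [if_pos hall, if_pos hall']
          have : (fun t => (Function.update i s ((⟨a :: (i s).1.1, hlen⟩ : B Γ Q N), false)
              t).1.1) = push (fun t => (i t).1.1) (s, a) := by
            funext t
            unfold push
            by_cases ht : t = s
            · subst ht; simp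
            · simp [ht]
          rw [this]
          ring
        · have hall' : ¬ ∀ t, (Function.update i s ((⟨a :: (i s).1.1, hlen⟩ : B Γ Q N), false) t).2
              = false := by
            intro h
            apply hall
            intro t
            by_cases ht : t = s
            · subst ht; exact h1'
            · have := h t
              simpa [ht] using this
          rw [if_neg hall, if_neg hall']
          ring
      · have hm : muL N a ((i s).1, true) = none := by
          unfold muL
          simp only
          rw [dif_neg hlen]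
        rw [hm]
        simp only
        rw [emb_apply]
        have : F (push (fun t => (i t).1.1) (s, a)) = 0 := by
          apply hF
          refine ⟨s, ?_⟩
          unfold push
          simpa using hlen
        rw [this]
        simp
  rw [key]
  exact Submodule.span_singleton_smul_eq (IsUnit.mk0 _ (by norm_num)) _

theorem span_emb_foldr {n : ℕ} (e : Gen K Γ Q → Fin n)
    (v : Fin n → Submodule ℝ (EuclideanSpace ℝ (I K Γ Q N)))
    (h1 : ∀ s, v (e (.inl (s, none))) = S N s (muN N))
    (h2 : ∀ s, v (e (.inl (s, some none))) = S N s (muM N))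
    (h3 : ∀ s a, v (e (.inl (s, some (some a)))) = S N s (muL N a))
    (l : List (Option K × Let Γ Q)) :
    ∀ (F : (Option K → List (Let Γ Q)) → ℝ) (_ : ∀ U, (∃ s, N < (U s).length) → F U = 0),
      (l.map (opE e v)).prod (Submodule.span ℝ {emb N F}) =
        Submodule.span ℝ {emb N fun U => F (l.foldl push U)} ∧
      ∀ U, (∃ s, N < (U s).length) → F (l.foldl push U) = 0 := by
  induction l with
  | nil =>
    intro F hF
    exact ⟨rfl, hF⟩
  | cons x l ih =>
    intro F hF
    obtain ⟨ih1, ih2⟩ := ih F hF
    constructor
    · rw [List.map_cons, List.prod_cons]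
      show opE e v x ((l.map (opE e v)).prod (Submodule.span ℝ {emb N F})) = _
      rw [ih1]
      unfold opE
      rw [tauE_apply, h1, h2, h3, tau_emb N x.1 x.2 _ ih2]
      rfl
    · rintro U ⟨s, hs⟩
      rw [List.foldl_cons]
      apply ih2
      refine ⟨s, hs.trans_le ?_⟩
      unfold push
      by_cases h : s = x.1
      · subst h; simp
      · rw [Function.update_of_ne h]

end model

theorem reject [DecidableEq K] [Finite K] [Finite Γ] [Finite Q] (M : Mach K Γ Q)
    (acc : Q → Γ → Prop) (hacc : ∀ q o, acc q o → M.δ q o = none) (e : Gen K Γ Q → Fin n)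
    (he : Function.Injective e) (ks : List K) (hks : ks.Nodup) (hall : ∀ k, k ∈ ks) (q₀ : Q)
    (S₀ : K → List Γ) (r : Q × (K → List Γ)) (hr : M.Reaches (q₀, S₀) r) (hh : M.step r = none)
    (hna : ∀ o z, r.2 (M.κ r.1) = o :: z → ¬ acc r.1 o) :
    ∃ (L : Type) (_ : OML L) (v : Fin n → L),
      (∀ p, IsRel M acc e p → p.1.eval v = p.2.eval v) ∧
        (cfgTerm ks e q₀ S₀).eval v ≠ ⊥ := by
  classical
  obtain ⟨N, hN⟩ := orb_bound M (q₀, S₀) r hr hh []
  have := finite_I (K := K) (Γ := Γ) (Q := Q) N
  have : Fintype (I K Γ Q N) := Fintype.ofFinite _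
  let f : Q → (Option K → List (Let Γ Q)) → ℝ := fun q U =>
    if ∃ S h, Orb M q₀ S₀ (q, S, h) ∧ encode S h = U then 1 else 0
  have hf : ∀ q U, (∃ s, N < (U s).length) → f q U = 0 := by
    rintro q U ⟨s, hs⟩
    refine if_neg ?_
    rintro ⟨S, h, hO, rfl⟩
    exact absurd (hN _ hO s) (not_le.2 hs)
  let ρ : Gen K Γ Q → Submodule ℝ (EuclideanSpace ℝ (I K Γ Q N)) := fun x =>
    match x with
    | .inl (s, none) => S N s (muN N)
    | .inl (s, some none) => S N s (muM N)
    | .inl (s, some (some a)) => S N s (muL N a)
    | .inr q => Submodule.span ℝ {emb N (f q)}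
  let v : Fin n → Submodule ℝ (EuclideanSpace ℝ (I K Γ Q N)) := Function.extend e ρ ⊥
  have hv : ∀ x, v (e x) = ρ x := fun x => he.extend_apply ρ ⊥ x
  have h1 : ∀ s, v (e (.inl (s, none))) = S N s (muN N) := fun s => hv _
  have h2 : ∀ s, v (e (.inl (s, some none))) = S N s (muM N) := fun s => hv _
  have h3 : ∀ s a, v (e (.inl (s, some (some a)))) = S N s (muL N a) := fun s a => hv _
  have h4 : ∀ q, v (e (.inr q)) = Submodule.span ℝ {emb N (f q)} := fun q => hv _
  have main := span_emb_foldr N e v h1 h2 h3
  have hop : ∀ x (F : (Option K → List (Let Γ Q)) → ℝ)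
      (_ : ∀ U, (∃ s, N < (U s).length) → F U = 0), opE e v x (Submodule.span ℝ {emb N F}) =
        Submodule.span ℝ {emb N fun U => F (push U x)} := by
    intro x F hF
    exact (main [x] F hF).1
  refine ⟨Submodule ℝ (EuclideanSpace ℝ (I K Γ Q N)), inferInstance, v, ?_, ?_⟩
  · rintro p (⟨s, t, a, b, hst, rfl⟩ | ⟨q, o, q', w, hδ, rfl⟩ | ⟨q, o, ha, rfl⟩)
    · show Com (v (e (.inl (s, a)))) (v (e (.inl (t, b))))
      rw [hv, hv]
      rcases a with _ | _ | a <;> rcases b with _ | _ | b
      · exact com_S N hst (inv_muN N)
      · exact com_S N hst (inv_muM N)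
      · exact com_S N hst (inv_muL N b)
      · exact com_S N hst (inv_muN N)
      · exact com_S N hst (inv_muM N)
      · exact com_S N hst (inv_muL N b)
      · exact com_S N hst (inv_muN N)
      · exact com_S N hst (inv_muM N)
      · exact com_S N hst (inv_muL N b)
    · show (tauT e (some (M.κ q), .inl o) (.var (e (.inr q)))).eval v =
        (chain e (w.reverse.map fun x => (some (M.κ q), .inl x))
        (tauT e (none, .inr (q, o)) (.var (e (.inr q'))))).eval v
      rw [eval_tauT, eval_chain, eval_tauT]
      show opE e v _ (v (e (.inr q))) =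
        ((w.reverse.map fun x => ((some (M.κ q), .inl x) : Option K × Let Γ Q)).map
          (opE e v)).prod (opE e v _ (v (e (.inr q'))))
      rw [h4, h4, hop _ _ (hf q), hop _ _ (hf q'), (main _ _ ?_).1]
      · congr 3
        funext U
        rw [foldl_push_word]
        show (if ∃ S h, Orb M q₀ S₀ (q, S, h) ∧ encode S h = push U (some (M.κ q), .inl o)
            then (1 : ℝ) else 0) =
          (if ∃ S h, Orb M q₀ S₀ (q', S, h) ∧ encode S h =
            push (Function.update U (some (M.κ q)) (w.map Sum.inl ++ U (some (M.κ q))))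
              (none, .inr (q, o)) then (1 : ℝ) else 0)
        simp only [orb_key M q₀ S₀ hδ U]
      · rintro U ⟨s, hs⟩
        apply hf
        refine ⟨s, hs.trans_le ?_⟩
        unfold push
        by_cases h : s = none
        · subst h; simp
        · rw [Function.update_of_ne h]
    · show (tauT e (some (M.κ q), .inl o) (.var (e (.inr q)))).eval v = ⊥
      rw [eval_tauT]
      show opE e v _ (v (e (.inr q))) = ⊥
      rw [h4, hop _ _ (hf q), Submodule.span_singleton_eq_bot]
      ext i
      rw [emb_apply]
      simp only [PiLp.zero_apply, ite_eq_right_iff]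
      intro _
      exact if_neg (orb_acc hacc hr hh hna ha _)
  · intro h0
    have h5 : (cfgTerm ks e q₀ S₀).eval v =
        ((word ks S₀).map (opE e v)).prod (v (e (.inr q₀))) := eval_chain e v _ _
    rw [h5, h4, (main _ _ (hf q₀)).1, Submodule.span_singleton_eq_bot] at h0
    have h6 := congrArg (fun g : EuclideanSpace ℝ (I K Γ Q N) =>
      g (fun _ => (⟨[], Nat.zero_le _⟩, false))) h0
    simp only [PiLp.zero_apply] at h6
    rw [emb_apply, if_pos (fun _ => rfl), foldl_push_all ks hks] at h6
    have h7 : f q₀ (fun s => match s with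
        | some k => if k ∈ ks then (S₀ k).map Sum.inl ++
            ((fun _ => []) : Option K → List (Let Γ Q)) (some k) else
            ((fun _ => []) : Option K → List (Let Γ Q)) (some k)
        | none => ((fun _ => []) : Option K → List (Let Γ Q)) none) = 1 := by
      show (if _ then (1 : ℝ) else 0) = 1
      rw [if_pos]
      refine ⟨S₀, [], Relation.ReflTransGen.refl, ?_⟩
      funext s
      cases s with
      | none => simp [encode]
      | some k => simp [encode, hall k]
    exact one_ne_zero (h7.symm.trans h6)

end machine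

/-! ### The reduction -/

open Turing in
open PartrecToTM2 (K' trNat) in
/-- **There is a finitely presented orthomodular lattice with unsolvable word problem.** -/
theorem result : ∃ (n : ℕ) (R : List (Term n × Term n)), ¬ SolvableWordProblem n R := by
  obtain ⟨Q, finQ, M, q0, acc, hacc, hA, hR⟩ := exists_mach diag diag_partrec
  have finK : Finite K' := by
    refine Finite.of_injective (fun k : K' => match k with
      | .main => (0 : Fin 4)
      | .rev => 1
      | .aux => 2
      | .stack => 3) ?_
    intro a b h
    cases a <;> cases b <;> simp_all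
  obtain ⟨N, ⟨eq⟩⟩ := Finite.exists_equiv_fin (Gen K' (Option PartrecToTM2.Γ') Q)
  let e : Gen K' (Option PartrecToTM2.Γ') Q → Fin N := eq
  have he : Function.Injective e := eq.injective
  let ks : List K' := [.rev, .aux, .stack, .main]
  have hks : ks.Nodup := by decide
  have hall : ∀ k, k ∈ ks := by intro k; cases k <;> simp [ks]
  let R : List (Term N × Term N) := (finite_rel M acc e).toFinset.toList
  have hRel : ∀ p, p ∈ R ↔ IsRel M acc e p := by
    intro p
    simp [R]
  refine ⟨N, R, ?_⟩
  rintro ⟨f, hf, hfv⟩
  let t : ℕ → Term N := fun n => cfgTerm ks e q0 (start n)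
  -- the code of the operator of a letter
  let tc0 : K' → List ℕ := fun k =>
    [2, (e (.inl (some k, none)) : ℕ) + 5, 3, 4, (e (.inl (some k, none)) : ℕ) + 5,
      2, (e (.inl (some k, some none)) : ℕ) + 5, 3, 4, (e (.inl (some k, some none)) : ℕ) + 5,
      2, 4, (e (.inl (some k, none)) : ℕ) + 5, 3, 4, 4, (e (.inl (some k, none)) : ℕ) + 5, 2]
  let tc : K' → ℕ → List ℕ := fun k i => tc0 k ++ ((i + 5) :: 3 :: 4 :: [i + 5])
  let κ : PartrecToTM2.Γ' → ℕ := fun a => e (.inl (some .main, some (some (.inl (some a)))))
  let pre : List ℕ := tc .rev (e (.inl (some .rev, some (some (.inl none))))) ++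
    (tc .aux (e (.inl (some .aux, some (some (.inl none))))) ++
    (tc .stack (e (.inl (some .stack, some (some (.inl none))))) ++
    (tc .main (e (.inl (some .main, some (some (.inl none))))) ++ tc .main (κ .cons))))
  have tau_code : ∀ (k : K') (a : Let (Option PartrecToTM2.Γ') Q) (t : Term N),
      (tauT e (some k, a) t).code = tc k (e (.inl (some k, some (some a)))) ++ t.code := by
    intro k a t
    simp [tauT, phiT, Term.code, tc, tc0]
  have hcode : ∀ n, (t n).code = pre ++ ((((trNat n).map κ).reverse.flatMap (tc .main)) ++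
      [(e (.inr q0) : ℕ) + 5]) := by
    intro n
    have hw : (word ks (start n) : List (Option K' × Let (Option PartrecToTM2.Γ') Q)) =
        (some .rev, .inl none) :: (some .aux, .inl none) :: (some .stack, .inl none) ::
        (some .main, .inl none) :: (some .main, .inl (some .cons)) ::
        ((trNat n).map fun a => (some K'.main, .inl (some a))).reverse := by
      simp [word, ks, start, List.map_reverse]
    have hch : ∀ (l : List PartrecToTM2.Γ') (t : Term N),
        (chain e (l.map fun a => (some K'.main, .inl (some a))) t).code =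
          (l.map κ).flatMap (tc .main) ++ t.code := by
      intro l t
      induction l with
      | nil => rfl
      | cons a l ih =>
        have : chain e ((a :: l).map fun a => (some K'.main, .inl (some a))) t =
          tauT e (some .main, .inl (some a))
            (chain e (l.map fun a => (some K'.main, .inl (some a))) t) := rfl
        rw [this, tau_code, ih]
        simp [κ]
    have h1 : t n = tauT e (some .rev, .inl none) (tauT e (some .aux, .inl none)
        (tauT e (some .stack, .inl none) (tauT e (some .main, .inl none)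
        (tauT e (some .main, .inl (some .cons)) (chain e
          ((trNat n).reverse.map fun a => (some K'.main, .inl (some a)))
          (.var (e (.inr q0)))))))) := by
      show chain e (word ks (start n)) _ = _
      rw [hw, ← List.map_reverse]
      rfl
    rw [h1, tau_code, tau_code, tau_code, tau_code, tau_code, hch]
    simp only [pre, List.append_assoc, List.map_reverse, Term.code]
    rfl
  have hcomp : Computable fun n => (t n).code := by
    have hfm : Computable (fun l : List ℕ => l.flatMap (tc .main)) := by
      apply Primrec.to_comp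
      refine Primrec.list_flatMap Primrec.id ?_
      have h5 : Primrec (fun x : ℕ => x + 5) := Primrec.nat_add.comp Primrec.id (Primrec.const 5)
      have : Primrec (fun x : ℕ => tc .main x) := by
        exact Primrec.list_append.comp (Primrec.const _) (Primrec.list_cons.comp h5
          (Primrec.list_cons.comp (Primrec.const 3) (Primrec.list_cons.comp (Primrec.const 4)
            (Primrec.list_cons.comp h5 (Primrec.const [])))))
      exact this.comp Primrec.snd
    have hd : Computable fun n => (((trNat n).map κ).reverse.flatMap (tc .main)) :=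
      hfm.comp (Computable.list_reverse.comp (Pool.Agent.Helper147.Univ.digits_computable κ))
    simp only [hcode]
    refine Computable.list_append.comp (Computable.const _) ?_
    exact Computable.list_append.comp hd (Computable.const _)
  refine insep (fun n => f ((t n).code, (Term.bot : Term N).code))
    (hf.comp (hcomp.pair (Computable.const _))) ?_ ?_
  · intro n hn
    rw [hfv, mk_eq]
    intro L _ v hv
    obtain ⟨q, S, o, z, h1, h2, h3⟩ := hA n hn
    exact accept M acc e v (fun p hp => hv p ((hRel p).2 hp)) ks hks hall _ _ h1 o z h2 h3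
  · intro n hn
    rw [Bool.eq_false_iff]
    intro h
    rw [hfv, mk_eq] at h
    obtain ⟨q, S, h1, h2, h3⟩ := hR n hn
    obtain ⟨L, i1, v, h4, h5⟩ :=
      reject M acc hacc e he ks hks hall q0 (start n) _ h1 h2 h3
    exact h5 (h L v fun p hp => h4 p ((hRel p).1 hp))

end Pool.Agent.Results.MP_6fdd0d_al.Unsolvable
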